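import Pool.Agent.Run7.h699.Fan.Main

/-!
# The strong countable fan tightness game on function spaces
-/

namespace Pool.Agent.Run7.h699.Fan

open Set

universe u v

/-- A homeomorphism maps winning strategies of II to winning strategies of II. -/
theorem IIWins.homeo {Y : Type u} {Z : Type v} [TopologicalSpace Y] [TopologicalSpace Z]
    (e : Y ≃ₜ Z) {y : Y} (h : IIWins y) : IIWins (e y) := by
  obtain ⟨σ, h1, h2⟩ := h
  have hcl : ∀ A : Set Z, e y ∈ closure A → y ∈ closure (e ⁻¹' A) := by
    intro A hA
    rw [← e.preimage_closure]
    exact hA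
  refine ⟨fun n A => e (σ n fun i => e ⁻¹' (A i)), fun n A hA => ?_, fun A hA => ?_⟩
  · exact h1 n (fun i => e ⁻¹' (A i)) fun i => hcl _ (hA i)
  · have h3 := h2 (fun n => e ⁻¹' (A n)) fun n => hcl _ (hA n)
    have h4 : e y ∈ e '' closure {z | ∃ n, z = σ n (fun i : Fin (n + 1) => e ⁻¹' (A i))} :=
      mem_image_of_mem e h3
    rw [e.image_closure] at h4
    refine closure_mono ?_ h4
    rintro _ ⟨z, ⟨n, rfl⟩, rfl⟩
    exact ⟨n, rfl⟩

/-- The space `C_p(X)`: the continuous real functions on `X`, with the topology of pointwise
convergence, that is, the topology of the product space `X → ℝ`. -/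
abbrev Cp (X : Type v) [TopologicalSpace X] : Type v := {f : X → ℝ // Continuous f}

/-- The translation of `C_p(X)` that maps `g` to `f`. -/
def translate {X : Type v} [TopologicalSpace X] (g f : Cp X) : Cp X ≃ₜ Cp X where
  toFun h := ⟨fun x => h.1 x - g.1 x + f.1 x, (h.2.sub g.2).add f.2⟩
  invFun h := ⟨fun x => h.1 x - f.1 x + g.1 x, (h.2.sub f.2).add g.2⟩
  left_inv h := by
    apply Subtype.ext
    funext x
    simp
  right_inv h := by
    apply Subtype.ext
    funext x
    simp
  continuous_toFun := by
    refine Continuous.subtype_mk ?_ _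
    refine continuous_pi fun x => ?_
    exact (((continuous_apply x).comp continuous_subtype_val).sub continuous_const).add
      continuous_const
  continuous_invFun := by
    refine Continuous.subtype_mk ?_ _
    refine continuous_pi fun x => ?_
    exact (((continuous_apply x).comp continuous_subtype_val).sub continuous_const).add
      continuous_const

theorem IIWins.translate {X : Type v} [TopologicalSpace X] {g : Cp X} (h : IIWins g) (f : Cp X) :
    IIWins f := by
  have h1 := h.homeo (Fan.translate g f)
  have h2 : Fan.translate g f g = f := by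
    apply Subtype.ext
    funext x
    simp [Fan.translate]
  rwa [h2] at h1

end Pool.Agent.Run7.h699.Fan
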