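import Pool.Agent.Helper669.Forcing

/-!
# The strong countable fan tightness game in the ground model and in the extension: definitions

Sentences of the forcing language of a preordered set `P` of conditions are sets of conditions,
see `Pool.Agent.Helper669.Forcing`. A name for a subset of the ground model set `X` is a map
`X → Set P`, the sentence `y ∈ A` is `meets (A y)`.
-/

namespace Pool.Agent.Run7.h699.Fan

open Pool.Agent.Helper669.Forcing
open Set

universe u v

/-! ### The game in the ground model -/

section

variable {X : Type v} [TopologicalSpace X]

/-- II has a winning strategy in the strong countable fan tightness game `G_1(Ω_x, Ω_x)`. The point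
`σ n A` is the answer of II in round `n`, when I has played the sets `A 0, …, A n`. -/
def IIWins (x : X) : Prop :=
  ∃ σ : (n : ℕ) → (Fin (n + 1) → Set X) → X,
    (∀ (n : ℕ) (A : Fin (n + 1) → Set X), (∀ i, x ∈ closure (A i)) → σ n A ∈ A (Fin.last n)) ∧
    ∀ A : ℕ → Set X, (∀ n, x ∈ closure (A n)) → x ∈ closure {y | ∃ n, y = σ n (fun i => A i)}

end

/-! ### The game in the extension -/

section

variable {P : Type u} [Preorder P] {X : Type v}

/-- The named sets `A` and `B` are equal. -/
def fSame (A B : X → Set P) : Set P :=
  fall fun y => fand (fimp (meets (A y)) (meets (B y))) (fimp (meets (B y)) (meets (A y)))

/-- The named set `A` is contained in `B`. -/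
def fSub (A B : X → Set P) : Set P := fall fun y => fimp (meets (A y)) (meets (B y))

/-- The named set `A` has exactly one element. -/
def fSingle (A : X → Set P) : Set P :=
  fand (fex fun y => meets (A y))
    (fall fun y => fall fun y' => fimp (fand (meets (A y)) (meets (A y'))) (fground (y = y')))

variable [TopologicalSpace X]

/-- The point `x` is in the closure of the named set `A`, for the topology with the ground model
topology as a base: every ground model open set that contains `x` has an element of `A`. -/
def fInCl (x : X) (A : X → Set P) : Set P :=
  fall fun O : Set X => fall fun _ : IsOpen O => fall fun _ : x ∈ O =>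
    fex fun y : X => fex fun _ : y ∈ O => meets (A y)

/-- `S` names a winning strategy of II in the strong countable fan tightness game at `x`. Here
`S n A` is a name for the set whose only element is the answer of II in round `n`, when I has
played the named sets `A 0, …, A n`. The first clause says that the answer depends only on the
sets played and not on their names, the second clause that it is an element of the last set
played, the third clause that `x` is in the closure of the set of the answers. -/
def fWinning (x : X) (S : (n : ℕ) → (Fin (n + 1) → X → Set P) → X → Set P) : Set P :=
  fand
    (fall fun n => fall fun A : Fin (n + 1) → X → Set P => fall fun B : Fin (n + 1) → X → Set P =>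
      fimp (fall fun i => fSame (A i) (B i)) (fSame (S n A) (S n B)))
    (fand
      (fall fun n => fall fun A : Fin (n + 1) → X → Set P =>
        fimp (fall fun i => fInCl x (A i))
          (fand (fSingle (S n A)) (fSub (S n A) (A (Fin.last n)))))
      (fall fun A : ℕ → X → Set P =>
        fimp (fall fun n => fInCl x (A n)) (fInCl x fun y => ⋃ n, S n (fun i => A i) y)))

/-- In the extension, II has a winning strategy in the strong countable fan tightness game at `x`
on the space `X` with the topology with the ground model topology as a base. -/
def fIIWins (x : X) : Set P :=
  fex fun S : (n : ℕ) → (Fin (n + 1) → X → Set P) → X → Set P => fWinning x S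

end

end Pool.Agent.Run7.h699.Fan
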