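import Pool.Agent.Run7.h699.Fan.Defs

/-!
# Every forcing preserves winning strategies in the strong countable fan tightness game
-/

namespace Pool.Agent.Run7.h699.Fan

open Pool.Agent.Helper669.Forcing
open Set

universe u v

set_option linter.unusedSectionVars false

/-! ### The dual game in the ground model -/

section

variable {X : Type v} [TopologicalSpace X]

/-- The finite sequence `z 0, …, z (n - 1)`. -/
def pre (z : ℕ → X) (n : ℕ) : List X := (List.range n).map z

omit [TopologicalSpace X] in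
theorem pre_succ (z : ℕ → X) (n : ℕ) : pre z (n + 1) = pre z n ++ [z n] := by
  simp [pre, List.range_succ]

omit [TopologicalSpace X] in
theorem pre_congr {z w : ℕ → X} {n : ℕ} (h : ∀ i < n, z i = w i) : pre z n = pre w n := by
  apply List.map_congr_left
  intro a ha
  exact h a (List.mem_range.1 ha)

/-- The answer of II in terms of lists of moves. -/
noncomputable def toL (σ : (n : ℕ) → (Fin (n + 1) → Set X) → X) (l : List (Set X)) (A : Set X) : X :=
  σ l.length (fun i => (l ++ [A])[(i : ℕ)]'(by have := i.2; simp; omega))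

open Classical in
/-- The move that leads to the answer `z`. -/
noncomputable def cm (σ : (n : ℕ) → (Fin (n + 1) → Set X) → X) (x : X) (l : List (Set X)) (z : X) :
    Set X :=
  if h : ∃ A, x ∈ closure A ∧ toL σ l A = z then h.choose else univ

theorem cm_cl (σ : (n : ℕ) → (Fin (n + 1) → Set X) → X) (x : X) (l : List (Set X)) (z : X) :
    x ∈ closure (cm σ x l z) := by
  unfold cm
  split_ifs with h
  · exact h.choose_spec.1
  · exact subset_closure (mem_univ x)

/-- The moves that lead to the answers in the list. -/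
noncomputable def mv (σ : (n : ℕ) → (Fin (n + 1) → Set X) → X) (x : X) (l : List X) :
    List (Set X) :=
  l.foldl (fun m z => m ++ [cm σ x m z]) []

theorem mv_snoc (σ : (n : ℕ) → (Fin (n + 1) → Set X) → X) (x : X) (l : List X) (z : X) :
    mv σ x (l ++ [z]) = mv σ x l ++ [cm σ x (mv σ x l) z] := by
  simp [mv, List.foldl_append]

theorem length_mv (σ : (n : ℕ) → (Fin (n + 1) → Set X) → X) (x : X) (l : List X) :
    (mv σ x l).length = l.length := by
  induction l using List.reverseRecOn with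
  | nil => rfl
  | append_singleton l z ih => rw [mv_snoc]; simp [ih]

theorem mv_cl (σ : (n : ℕ) → (Fin (n + 1) → Set X) → X) (x : X) (l : List X) :
    ∀ A ∈ mv σ x l, x ∈ closure A := by
  induction l using List.reverseRecOn with
  | nil => intro A hA; simp [mv] at hA
  | append_singleton l z ih =>
    intro A hA
    rw [mv_snoc, List.mem_append, List.mem_singleton] at hA
    rcases hA with hA | rfl
    · exact ih A hA
    · exact cm_cl σ x _ z

/-- The neighbourhood played in the dual game. -/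
noncomputable def nb (σ : (n : ℕ) → (Fin (n + 1) → Set X) → X) (x : X) (l : List X) : Set X :=
  (closure {z | ¬ ∃ A, x ∈ closure A ∧ toL σ (mv σ x l) A = z})ᶜ

theorem toL_mem {σ : (n : ℕ) → (Fin (n + 1) → Set X) → X} {x : X}
    (h : ∀ (n : ℕ) (A : Fin (n + 1) → Set X), (∀ i, x ∈ closure (A i)) → σ n A ∈ A (Fin.last n))
    {l : List (Set X)} (hl : ∀ A ∈ l, x ∈ closure A) {A : Set X} (hA : x ∈ closure A) :
    toL σ l A ∈ A := by
  have h1 := h l.length (fun i => (l ++ [A])[(i : ℕ)]'(by have := i.2; simp; omega)) (by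
    intro i
    have : (l ++ [A])[(i : ℕ)]'(by have := i.2; simp; omega) ∈ l ++ [A] := List.getElem_mem _
    rw [List.mem_append, List.mem_singleton] at this
    rcases this with h2 | h2
    · exact hl _ h2
    · rw [h2]; exact hA)
  simpa [toL] using h1

/-- II wins the game, hence I wins the dual game. -/
theorem exists_dual {x : X} (h : IIWins x) :
    ∃ τ : List X → Set X, (∀ l, IsOpen (τ l)) ∧ (∀ l, x ∈ τ l) ∧
      ∀ z : ℕ → X, (∀ n, z n ∈ τ (pre z n)) → x ∈ closure (range z) := by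
  obtain ⟨σ, h1, h2⟩ := h
  refine ⟨nb σ x, fun l => isClosed_closure.isOpen_compl, fun l hx => ?_, fun z hz => ?_⟩
  · have h3 := toL_mem h1 (mv_cl σ x l) hx
    exact h3 ⟨_, hx, rfl⟩
  · have h3 : ∀ n, ∃ A, x ∈ closure A ∧ toL σ (mv σ x (pre z n)) A = z n := by
      intro n
      by_contra hcon
      exact hz n (subset_closure hcon)
    have h4 : ∀ n, toL σ (mv σ x (pre z n)) (cm σ x (mv σ x (pre z n)) (z n)) = z n := by
      intro n
      have h5 := (h3 n).choose_spec.2
      unfold cm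
      rw [dif_pos (h3 n)]
      exact h5
    have h5 := h2 (fun n => cm σ x (mv σ x (pre z n)) (z n)) (fun n => cm_cl _ _ _ _)
    refine closure_mono ?_ h5
    rintro y ⟨n, rfl⟩
    refine ⟨n, ?_⟩
    rw [← h4 n]
    -- the moves agree
    have h6 : ∀ k, mv σ x (pre z k) =
        (List.range k).map (fun n => cm σ x (mv σ x (pre z n)) (z n)) := by
      intro k
      induction k with
      | zero => rfl
      | succ k ih => rw [pre_succ, mv_snoc, List.range_succ, List.map_append, ← ih]; rfl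
    have h7 : ∀ (m : List (Set X)) (A : Set X) (B : ℕ → Set X) (hm : m.length = n),
        m ++ [A] = (List.range (n + 1)).map B → toL σ m A = σ n (fun i => B i) := by
      intro m A B hm hB
      subst hm
      unfold toL
      congr 1
      funext i
      have : ∀ (L : List (Set X)) (hL : (i : ℕ) < L.length), L = (List.range (m.length + 1)).map B →
          L[(i : ℕ)] = B i := by
        intro L hL h8
        subst h8
        simp
      exact this _ _ hB
    refine h7 (mv σ x (pre z n)) (cm σ x (mv σ x (pre z n)) (z n))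
      (fun n => cm σ x (mv σ x (pre z n)) (z n)) (by rw [length_mv]; simp [pre]) ?_
    rw [List.range_succ, List.map_append, ← h6 n]
    rfl

end

/-! ### The strategy in the extension -/

section

variable {P : Type u} [Preorder P] {X : Type v}

theorem meets_of_dense {N : Set P} {p : P} (h : ∀ q ≤ p, ∃ r ≤ q, r ∈ meets N) : p ∈ meets N := by
  intro q hq
  obtain ⟨r, hr, h1⟩ := h q hq
  obtain ⟨r', hr', s, hs, h2⟩ := h1 r le_rfl
  exact ⟨r', hr'.trans hr, s, hs, h2⟩

/-- The condition `r` forces that `w 0, …, w (k - 1)` are the least possible answers to the moves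
`A`, if the `i`-th answer has to be in `τ (w 0, …, w (i - 1))`. -/
def Ok (τ : List X → Set X) (A : ℕ → X → Set P) (w : ℕ → X) (k : ℕ) (r : P) : Prop :=
  ∀ i < k, r ∈ meets (A i (w i)) ∧ w i ∈ τ (pre w i) ∧
    ∀ z ∈ τ (pre w i), WellOrderingRel z (w i) → ∀ r' ≤ r, r' ∉ meets (A i z)

variable {τ : List X → Set X} {A B : ℕ → X → Set P} {w w' : ℕ → X} {k : ℕ} {r q : P}

theorem Ok.down (h : Ok τ A w k r) (hq : q ≤ r) : Ok τ A w k q := fun i hi =>
  ⟨down_meets _ _ (h i hi).1 _ hq, (h i hi).2.1, fun z hz hzw r' hr' =>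
    (h i hi).2.2 z hz hzw r' (hr'.trans hq)⟩

theorem Ok.mono (h : Ok τ A w k r) {m : ℕ} (hm : m ≤ k) : Ok τ A w m r :=
  fun i hi => h i (hi.trans_le hm)

theorem Ok.unique (h : Ok τ A w k r) (h' : Ok τ A w' k r) : ∀ i < k, w i = w' i := by
  intro i
  induction i using Nat.strong_induction_on with
  | _ i ih =>
    intro hi
    have h1 : pre w i = pre w' i := pre_congr fun j hj => ih j hj (hj.trans hi)
    obtain ⟨a1, a2, a3⟩ := h i hi
    obtain ⟨b1, b2, b3⟩ := h' i hi
    rcases trichotomous_of (WellOrderingRel (α := X)) (w i) (w' i) with h2 | h2 | h2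
    · exact absurd a1 (b3 _ (h1 ▸ a2) h2 r le_rfl)
    · exact h2
    · exact absurd b1 (a3 _ (h1 ▸ b2) h2 r le_rfl)

theorem Ok.congr_w (h : Ok τ A w k r) (hw : ∀ i < k, w' i = w i) : Ok τ A w' k r := by
  intro i hi
  have h1 : pre w' i = pre w i := pre_congr fun j hj => hw j (hj.trans hi)
  rw [h1, hw i hi]
  exact h i hi

theorem Ok.congr_A (h : Ok τ A w k r) (hAB : ∀ i < k, r ∈ fSame (A i) (B i)) : Ok τ B w k r := by
  intro i hi
  obtain ⟨a1, a2, a3⟩ := h i hi
  refine ⟨?_, a2, fun z hz hzw r' hr' h1 => ?_⟩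
  · exact meets_of_dense fun q hq => mem_fimp.1 (hAB i hi (w i)).1 q hq (down_meets _ _ a1 _ hq)
  · obtain ⟨r'', hr'', h2⟩ := mem_fimp.1 (hAB i hi z).2 r' hr' h1
    exact a3 z hz hzw r'' (hr''.trans hr') h2

/-- One more answer. -/
theorem Ok.extend [TopologicalSpace X] {x : X} (hτ : ∀ l, IsOpen (τ l)) (hx : ∀ l, x ∈ τ l)
    (h : Ok τ A w k r) (hA : r ∈ fInCl x (A k)) :
    ∃ r' ≤ r, ∃ w', (∀ i < k, w' i = w i) ∧ Ok τ A w' (k + 1) r' := by
  classical
  let Z : Set X := {z | z ∈ τ (pre w k) ∧ ∃ r' ≤ r, r' ∈ meets (A k z)}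
  have hZ : Z.Nonempty := by
    obtain ⟨r1, hr1, y, h1⟩ := mem_fex.1 (hA (τ (pre w k)) (hτ _) (hx _)) r le_rfl
    obtain ⟨r2, hr2, hy, h2⟩ := mem_fex.1 h1 r1 le_rfl
    exact ⟨y, hy, r2, hr2.trans hr1, h2⟩
  obtain ⟨z0, ⟨hz0, r', hr', h1⟩, hmin⟩ :=
    (WellOrderingRel.isWellOrder (α := X)).wf.has_min Z hZ
  have hw : ∀ i < k, Function.update w k z0 i = w i := fun i hi =>
    Function.update_of_ne (by omega) _ _
  refine ⟨r', hr', Function.update w k z0, hw, ?_⟩
  have h2 : Ok τ A (Function.update w k z0) k r' := (h.down hr').congr_w hw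
  intro i hi
  rcases Nat.lt_succ_iff_lt_or_eq.1 hi with h3 | rfl
  · exact h2 i h3
  · have h4 : pre (Function.update w i z0) i = pre w i := pre_congr hw
    rw [h4, Function.update_self]
    exact ⟨h1, hz0, fun z hz hzw r'' hr'' h5 => hmin z ⟨hz, r'', hr''.trans hr', h5⟩ hzw⟩

/-- The name for the strategy, for infinite sequences of moves. -/
def SS (τ : List X → Set X) (n : ℕ) (A : ℕ → X → Set P) (y : X) : Set P :=
  {r | ∃ w : ℕ → X, w n = y ∧ Ok τ A w (n + 1) r}

/-- The name for the strategy. -/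
def ST (τ : List X → Set X) (n : ℕ) (A : Fin (n + 1) → X → Set P) : X → Set P :=
  SS τ n (fun i => if h : i < n + 1 then A ⟨i, h⟩ else fun _ => univ)

theorem down_SS (n : ℕ) (A : ℕ → X → Set P) (y : X) : Down (SS τ n A y) := by
  rintro r ⟨w, h1, h2⟩ q hq
  exact ⟨w, h1, h2.down hq⟩

theorem Ok.congr_eq (h : Ok τ A w k r) (hAB : ∀ i < k, A i = B i) : Ok τ B w k r := by
  intro i hi
  rw [← hAB i hi]
  exact h i hi

theorem SS_congr {n : ℕ} (hAB : ∀ i < n + 1, A i = B i) : SS τ n A = SS τ n B := by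
  funext y
  ext r
  constructor
  · rintro ⟨w, h1, h2⟩
    exact ⟨w, h1, h2.congr_eq hAB⟩
  · rintro ⟨w, h1, h2⟩
    exact ⟨w, h1, h2.congr_eq fun i hi => (hAB i hi).symm⟩

theorem ST_eq (n : ℕ) (A : ℕ → X → Set P) : ST τ n (fun i => A i) = SS τ n A := by
  refine SS_congr fun i hi => ?_
  simp [hi]

theorem fSame_SS {n : ℕ} (hAB : ∀ i < n + 1, r ∈ fSame (A i) (B i)) :
    r ∈ fSame (SS τ n A) (SS τ n B) := by
  have hd : ∀ C D : X → Set P, Down (fSame C D) := fun C D =>
    down_fall fun y => down_fand (down_fimp _ _) (down_fimp _ _)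
  have hsymm : ∀ i < n + 1, r ∈ fSame (B i) (A i) := fun i hi y => ⟨(hAB i hi y).2, (hAB i hi y).1⟩
  have key : ∀ C D : ℕ → X → Set P, (∀ i < n + 1, r ∈ fSame (C i) (D i)) → ∀ y, ∀ q ≤ r,
      q ∈ meets (SS τ n C y) → q ∈ meets (SS τ n D y) := by
    intro C D hCD y q hq h
    refine meets_of_dense fun q' hq' => ?_
    obtain ⟨r', hr', s, ⟨w, h1, h2⟩, h3⟩ := h q' hq'
    exact ⟨r', hr', meets_of_mem ⟨w, h1, (h2.down h3).congr_A fun i hi =>
      hd _ _ _ (hCD i hi) _ (hr'.trans (hq'.trans hq))⟩⟩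
  intro y
  exact ⟨mem_fimp.2 fun q hq h => ⟨q, le_rfl, key A B hAB y q hq h⟩,
    mem_fimp.2 fun q hq h => ⟨q, le_rfl, key B A hsymm y q hq h⟩⟩

variable [TopologicalSpace X] {x : X}

theorem down_fInCl (A : X → Set P) : Down (fInCl x A) :=
  down_fall fun _ => down_fall fun _ => down_fall fun _ => down_fex _

theorem exists_Ok (hτ : ∀ l, IsOpen (τ l)) (hx : ∀ l, x ∈ τ l) {A : ℕ → X → Set P} {p : P} (n : ℕ)
    (hA : ∀ i < n, p ∈ fInCl x (A i)) {q : P} (hq : q ≤ p) : ∃ r ≤ q, ∃ w, Ok τ A w n r := by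
  induction n with
  | zero => exact ⟨q, le_rfl, fun _ => x, fun i hi => by omega⟩
  | succ n ih =>
    obtain ⟨r, hr, w, h⟩ := ih fun i hi => hA i (by omega)
    obtain ⟨r', hr', w', -, h'⟩ := h.extend hτ hx (down_fInCl _ _ (hA n (by omega)) _ (hr.trans hq))
    exact ⟨r', hr'.trans hr, w', h'⟩

theorem single_SS (hτ : ∀ l, IsOpen (τ l)) (hx : ∀ l, x ∈ τ l) {A : ℕ → X → Set P} {p : P} (n : ℕ)
    (hA : ∀ i < n + 1, p ∈ fInCl x (A i)) : p ∈ fSingle (SS τ n A) := by
  refine ⟨mem_fex.2 fun q hq => ?_, fun y y' => mem_fimp.2 fun q hq h => ⟨q, le_rfl, ?_⟩⟩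
  · obtain ⟨r, hr, w, h⟩ := exists_Ok hτ hx (n + 1) hA hq
    exact ⟨r, hr, w n, meets_of_mem ⟨w, rfl, h⟩⟩
  · obtain ⟨r1, hr1, h1⟩ := exists_of_meets (down_SS n A y) h.1
    obtain ⟨r2, hr2, h2⟩ := exists_of_meets (down_SS n A y') (down_meets _ _ h.2 _ hr1)
    obtain ⟨w, h3, h4⟩ := down_SS n A y _ h1 _ hr2
    obtain ⟨w', h5, h6⟩ := h2
    rw [mem_fground, ← h3, ← h5]
    exact h4.unique h6 n (by omega)

theorem sub_SS {A : ℕ → X → Set P} {p : P} (n : ℕ) : p ∈ fSub (SS τ n A) (A n) := by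
  intro y
  refine mem_fimp.2 fun q hq h => ?_
  obtain ⟨r1, hr1, w, h1, h2⟩ := exists_of_meets (down_SS n A y) h
  exact ⟨r1, hr1, h1 ▸ (h2 n (by omega)).1⟩

theorem win_SS (hτ : ∀ l, IsOpen (τ l)) (hx : ∀ l, x ∈ τ l)
    (hwin : ∀ z : ℕ → X, (∀ n, z n ∈ τ (pre z n)) → x ∈ closure (range z))
    {A : ℕ → X → Set P} {p : P} (hA : ∀ n, p ∈ fInCl x (A n)) :
    p ∈ fInCl x (fun y => ⋃ n, SS τ n A y) := by
  intro O hO hxO
  refine mem_fex.2 fun q hq => ?_
  by_contra hcon
  push Not at hcon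
  have hno : ∀ r ≤ q, ∀ n (w : ℕ → X), Ok τ A w (n + 1) r → w n ∉ O := by
    intro r hr n w h hw
    refine hcon r hr (w n) (mem_fex_of_mem hw (down_meets _) (meets_of_mem ?_))
    exact mem_iUnion.2 ⟨n, w, rfl, h⟩
  let T : ℕ → Type _ := fun k => {t : P × (ℕ → X) // t.1 ≤ q ∧ Ok τ A t.2 k t.1}
  have hstep : ∀ k (t : T k), ∃ t' : T (k + 1), ∀ i < k, t'.1.2 i = t.1.2 i := by
    rintro k ⟨⟨r, w⟩, hr, h⟩
    obtain ⟨r', hr', w', h1, h2⟩ := h.extend hτ hx (down_fInCl _ _ (hA k) _ (hr.trans hq))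
    exact ⟨⟨⟨r', w'⟩, hr'.trans hr, h2⟩, h1⟩
  choose st hst using hstep
  let t : (k : ℕ) → T k := fun k =>
    Nat.rec ⟨(q, fun _ => x), le_rfl, fun i hi => absurd hi (Nat.not_lt_zero i)⟩ (fun k t => st k t) k
  have ht : ∀ k, t (k + 1) = st k (t k) := fun k => rfl
  have hag : ∀ k l, k ≤ l → ∀ i < k, (t l).1.2 i = (t k).1.2 i := by
    intro k l hkl
    induction l, hkl using Nat.le_induction with
    | base => exact fun _ _ => rfl
    | succ l hl ih =>
      intro i hi
      rw [ht, hst l (t l) i (hi.trans_le hl)]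
      exact ih i hi
  let z : ℕ → X := fun k => (t (k + 1)).1.2 k
  have hz : ∀ k, ∀ i < k, (t k).1.2 i = z i := fun k i hi =>
    hag (i + 1) k hi i (by omega)
  have h1 : x ∈ closure (range z) := by
    refine hwin z fun n => ?_
    have h2 := (t (n + 1)).2.2 n (by omega)
    have h3 : pre (t (n + 1)).1.2 n = pre z n := pre_congr fun i hi => hz (n + 1) i (by omega)
    rw [h3] at h2
    exact h2.2.1
  obtain ⟨y, hyO, n, rfl⟩ := mem_closure_iff.1 h1 O hO hxO
  exact hno _ (t (n + 1)).2.1 n (t (n + 1)).1.2 (t (n + 1)).2.2 hyO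

/-- Every forcing preserves winning strategies of II in the strong countable fan tightness
game. -/
theorem preserved {x : X} (h : IIWins x) (p : P) : p ∈ fIIWins (P := P) x := by
  obtain ⟨τ, hτ, hx, hwin⟩ := exists_dual h
  refine mem_fex.2 fun q _ => ⟨q, le_rfl, ST τ, ?_, ?_, ?_⟩
  · intro n A B
    refine mem_fimp.2 fun r _ hr => ⟨r, le_rfl, ?_⟩
    refine fSame_SS fun i hi => ?_
    simp only [hi, dif_pos]
    exact hr ⟨i, hi⟩
  · intro n A
    refine mem_fimp.2 fun r _ hr => ⟨r, le_rfl, ?_, ?_⟩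
    · refine single_SS hτ hx n fun i hi => ?_
      simp only [hi, dif_pos]
      exact hr ⟨i, hi⟩
    · have h1 := sub_SS (τ := τ) (p := r)
        (A := fun i => if h : i < n + 1 then A ⟨i, h⟩ else fun _ => univ) n
      rw [dif_pos (Nat.lt_succ_self n)] at h1
      exact h1
  · intro A
    refine mem_fimp.2 fun r _ hr => ⟨r, le_rfl, ?_⟩
    have h1 := win_SS hτ hx hwin hr
    simpa only [ST_eq] using h1

end

end Pool.Agent.Run7.h699.Fan
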